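import Pool.Agent.Helper5.SR.St1

/-!
# Project SR, module HAN: Hankel windows and Vandermonde
-/

set_option autoImplicit false

namespace Pool.Agent.Helper2.SR

open Helper5.SR Pool.Agent.Helper51.LT

namespace HAN

/-- crude operator bound in the sup norm -/
lemma mulVec_le {n : ℕ} (W : Matrix (Fin n) (Fin n) ℂ) (K : ℝ) (hK : ∑ i, ∑ j, ‖W i j‖ ≤ K)
    (x : Fin n → ℂ) : ‖W.mulVec x‖ ≤ K * ‖x‖ := by
  have hK0 : 0 ≤ K := le_trans (Finset.sum_nonneg fun i _ => Finset.sum_nonneg fun j _ =>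
    norm_nonneg _) hK
  rw [pi_norm_le_iff_of_nonneg (by positivity)]
  intro i
  have h1 : ‖W.mulVec x i‖ ≤ ∑ j, ‖W i j‖ * ‖x‖ := by
    change ‖∑ j, W i j * x j‖ ≤ _
    refine (norm_sum_le _ _).trans (Finset.sum_le_sum fun j _ => ?_)
    rw [norm_mul]
    exact mul_le_mul_of_nonneg_left (norm_le_pi_norm x j) (norm_nonneg _)
  refine h1.trans ?_
  rw [← Finset.sum_mul]
  refine mul_le_mul_of_nonneg_right ?_ (norm_nonneg _)
  exact (Finset.single_le_sum (f := fun i => ∑ j, ‖W i j‖)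
    (fun i _ => Finset.sum_nonneg fun j _ => norm_nonneg _) (Finset.mem_univ i)).trans hK

lemma exists_norm_eq {n : ℕ} (x : Fin n → ℂ) (hx : x ≠ 0) : ∃ k, ‖x k‖ = ‖x‖ := by
  by_contra hcon
  push Not at hcon
  have h0 : 0 < ‖x‖ := norm_pos_iff.mpr hx
  have : ‖x‖ < ‖x‖ := (pi_norm_lt_iff h0).mpr fun i => lt_of_le_of_ne (norm_le_pi_norm x i) (hcon i)
  exact lt_irrefl _ this

end HAN

open HAN in
theorem hHan (hMat : StMat) : StHan := by
  intro m ζ hζ _
  obtain ⟨c, hc, hM⟩ := hMat (m + 1)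
  set V : Matrix (Fin (m + 1)) (Fin (m + 1)) ℂ := Matrix.vandermonde ζ with hV
  have hdet : V.det ≠ 0 := Matrix.det_vandermonde_ne_zero_iff.mpr hζ
  have hu : IsUnit V.det := isUnit_iff_ne_zero.mpr hdet
  set W := V⁻¹ with hW
  have hWV : W * V = 1 := Matrix.nonsing_inv_mul V hu
  have hVWt : V.transpose * W.transpose = 1 := by
    rw [← Matrix.transpose_mul, hWV, Matrix.transpose_one]
  have hWVt : W.transpose * V.transpose = 1 := by
    rw [← Matrix.transpose_mul, Matrix.mul_nonsing_inv V hu, Matrix.transpose_one]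
  set K : ℝ := 1 + ∑ i, ∑ j, ‖W i j‖ with hK
  have hs0 : 0 ≤ ∑ i, ∑ j, ‖W i j‖ :=
    Finset.sum_nonneg fun i _ => Finset.sum_nonneg fun j _ => norm_nonneg _
  have hK1 : 1 ≤ K := by linarith
  have hK0 : 0 < K := by linarith
  have b1 : ∀ x : Fin (m + 1) → ℂ, ‖W.mulVec x‖ ≤ K * ‖x‖ := fun x =>
    mulVec_le W K (by linarith) x
  have b2 : ∀ x : Fin (m + 1) → ℂ, ‖W.transpose.mulVec x‖ ≤ K * ‖x‖ := fun x =>
    mulVec_le W.transpose K (by
      have : ∑ i, ∑ j, ‖W.transpose i j‖ = ∑ i, ∑ j, ‖W i j‖ := by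
        rw [Finset.sum_comm]
        rfl
      rw [this]
      linarith) x
  refine ⟨c / (2 * K ^ 2), c / (2 * K ^ 2 * (m + 1) ^ 2), by positivity, by positivity, ?_⟩
  intro a v t ht hv
  set H : Matrix (Fin (m + 1)) (Fin (m + 1)) ℂ := Matrix.of fun i k => a (i + k) with hH
  have hHt : H.transpose = H := by
    ext i k
    simp [hH, add_comm]
  set A := W.transpose * (H * W) with hA
  have hAt : A.transpose = A := by
    rw [hA, Matrix.transpose_mul, Matrix.transpose_mul, Matrix.transpose_transpose, hHt,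
      Matrix.mul_assoc]
  have hAs : ∀ i j, A i j = A j i := by
    intro i j
    conv_lhs => rw [← hAt]
    rfl
  obtain ⟨I, hI⟩ := hM A hAs t ht
  refine ⟨I, ?_⟩
  intro cc hc1 hc2
  -- norm of cc
  have hcc : ‖cc‖ = 1 := by
    obtain ⟨k, hk⟩ := hc2
    refine le_antisymm ((pi_norm_le_iff_of_nonneg zero_le_one).mpr hc1) ?_
    rw [← hk]
    exact norm_le_pi_norm cc k
  set x := V.mulVec cc with hx
  have hWx : W.mulVec x = cc := by
    rw [hx, Matrix.mulVec_mulVec, hWV, Matrix.one_mulVec]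
  have hx1 : 1 ≤ K * ‖x‖ := by
    have := b1 x
    rw [hWx, hcc] at this
    exact this
  have hx0 : 0 < ‖x‖ := by
    by_contra hcon
    have : ‖x‖ = 0 := le_antisymm (not_lt.mp hcon) (norm_nonneg _)
    rw [this] at hx1
    linarith
  have hxne : x ≠ 0 := norm_pos_iff.mp hx0
  obtain ⟨k₁, hk₁⟩ := exists_norm_eq x hxne
  set y : Fin (m + 1) → ℂ := fun i => (∑ j, A i j * x j) + (if i ∈ I then (t : ℂ) * x i else 0)
    with hy
  have hyn : c * t * ‖x‖ ≤ ‖y‖ := by
    obtain ⟨i, hi⟩ := hI (fun k => ((‖x‖⁻¹ : ℝ) : ℂ) * x k)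
      (fun k => by
        rw [norm_mul, Complex.norm_real, Real.norm_of_nonneg (by positivity)]
        rw [inv_mul_le_iff₀ hx0, mul_one]
        exact norm_le_pi_norm x k)
      ⟨k₁, by
        rw [norm_mul, Complex.norm_real, Real.norm_of_nonneg (by positivity), hk₁]
        field_simp⟩
    have e : (∑ j, A i j * (((‖x‖⁻¹ : ℝ) : ℂ) * x j)) +
        (if i ∈ I then (t : ℂ) * (((‖x‖⁻¹ : ℝ) : ℂ) * x i) else 0) = ((‖x‖⁻¹ : ℝ) : ℂ) * y i := by
      rw [hy]
      simp only [mul_add, Finset.mul_sum]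
      congr 1
      · exact Finset.sum_congr rfl fun j _ => by ring
      · split_ifs
        · ring
        · simp
    rw [e, norm_mul, Complex.norm_real, Real.norm_of_nonneg (by positivity)] at hi
    have h2 : c * t * ‖x‖ ≤ ‖y i‖ := by
      rw [← div_eq_inv_mul, le_div_iff₀ hx0] at hi
      exact hi
    exact h2.trans (norm_le_pi_norm y i)
  set z := V.transpose.mulVec y with hz
  have hWz : W.transpose.mulVec z = y := by
    rw [hz, Matrix.mulVec_mulVec, hWVt, Matrix.one_mulVec]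
  have hzn : c * t / K ^ 2 ≤ ‖z‖ := by
    have h1 := b2 z
    rw [hWz] at h1
    rw [div_le_iff₀ (by positivity)]
    calc c * t = c * t * 1 := by ring
      _ ≤ c * t * (K * ‖x‖) := mul_le_mul_of_nonneg_left hx1 (by positivity)
      _ = K * (c * t * ‖x‖) := by ring
      _ ≤ K * ‖y‖ := mul_le_mul_of_nonneg_left hyn hK0.le
      _ ≤ K * (K * ‖z‖) := mul_le_mul_of_nonneg_left h1 hK0.le
      _ = ‖z‖ * K ^ 2 := by ring
  have hzne : z ≠ 0 := by
    intro h0
    rw [h0, norm_zero] at hzn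
    have : 0 < c * t / K ^ 2 := by positivity
    linarith
  obtain ⟨i, hi⟩ := exists_norm_eq z hzne
  refine ⟨i, Nat.lt_succ_iff.mp i.2, ?_⟩
  -- formula for z i
  have hzi : z i = ∑ k, cc k * (a (i + k) + ∑ l ∈ I, (t : ℂ) * ζ l ^ ((i : ℕ) + (k : ℕ))) := by
    have hy2 : y = A.mulVec x + fun l => if l ∈ I then (t : ℂ) * x l else 0 := by
      funext l
      rfl
    have hVA : V.transpose.mulVec (A.mulVec x) = H.mulVec cc := by
      rw [Matrix.mulVec_mulVec, hx, Matrix.mulVec_mulVec, hA]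
      have : V.transpose * (W.transpose * (H * W)) * V = H := by
        rw [← Matrix.mul_assoc V.transpose, hVWt, Matrix.one_mul, Matrix.mul_assoc, hWV,
          Matrix.mul_one]
      rw [this]
    rw [hz, hy2, Matrix.mulVec_add, hVA]
    simp only [Pi.add_apply, mul_add, Finset.sum_add_distrib]
    congr 1
    · simp only [Matrix.mulVec, dotProduct, hH, Matrix.of_apply]
      exact Finset.sum_congr rfl fun k _ => mul_comm _ _
    · simp only [Matrix.mulVec, dotProduct, Matrix.transpose_apply]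
      have e1 : ∀ l, V l i * (if l ∈ I then (t : ℂ) * x l else 0) =
          if l ∈ I then (∑ k, cc k * ((t : ℂ) * ζ l ^ ((i : ℕ) + (k : ℕ)))) else 0 := by
        intro l
        split_ifs with hl
        · rw [hx]
          simp only [Matrix.mulVec, dotProduct, hV, Matrix.vandermonde_apply, Finset.mul_sum]
          refine Finset.sum_congr rfl fun k _ => ?_
          rw [pow_add]
          ring
        · simp
      rw [Finset.sum_congr rfl fun l _ => e1 l, ← Finset.sum_filter, Finset.filter_mem_eq_inter,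
        Finset.univ_inter, Finset.sum_comm]
      exact Finset.sum_congr rfl fun k _ => by rw [Finset.mul_sum]
  have hsplit : ∑ k, cc k * (a (i + k) + ∑ l ∈ I, v l (i + k)) =
      z i + ∑ k, cc k * ∑ l ∈ I, (v l (i + k) - (t : ℂ) * ζ l ^ ((i : ℕ) + (k : ℕ))) := by
    rw [hzi, ← Finset.sum_add_distrib]
    refine Finset.sum_congr rfl fun k _ => ?_
    rw [Finset.sum_sub_distrib]
    ring
  have herr : ‖∑ k, cc k * ∑ l ∈ I, (v l (i + k) - (t : ℂ) * ζ l ^ ((i : ℕ) + (k : ℕ)))‖ ≤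
      c / (2 * K ^ 2) * t := by
    set ε := c / (2 * K ^ 2 * (m + 1) ^ 2) with hε
    have hε0 : 0 < ε := by positivity
    have h1 : ∀ k : Fin (m + 1), ‖cc k * ∑ l ∈ I, (v l (i + k) -
        (t : ℂ) * ζ l ^ ((i : ℕ) + (k : ℕ)))‖ ≤ (m + 1) * (ε * t) := by
      intro k
      rw [norm_mul]
      have h2 : ‖∑ l ∈ I, (v l (i + k) - (t : ℂ) * ζ l ^ ((i : ℕ) + (k : ℕ)))‖ ≤
          (m + 1) * (ε * t) := by
        refine (norm_sum_le _ _).trans ?_
        have h3 : ∀ l ∈ I, ‖v l (i + k) - (t : ℂ) * ζ l ^ ((i : ℕ) + (k : ℕ))‖ ≤ ε * t := by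
          intro l _
          refine hv l (i + k) ?_
          have := i.2
          have := k.2
          omega
        refine (Finset.sum_le_sum h3).trans ?_
        rw [Finset.sum_const, nsmul_eq_mul]
        refine mul_le_mul_of_nonneg_right ?_ (by positivity)
        have : I.card ≤ m + 1 := by
          have := Finset.card_le_univ I
          rwa [Fintype.card_fin] at this
        exact_mod_cast this
      calc ‖cc k‖ * ‖∑ l ∈ I, (v l (i + k) - (t : ℂ) * ζ l ^ ((i : ℕ) + (k : ℕ)))‖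
          ≤ 1 * ((m + 1) * (ε * t)) := mul_le_mul (hc1 k) h2 (norm_nonneg _) zero_le_one
        _ = (m + 1) * (ε * t) := one_mul _
    refine (norm_sum_le _ _).trans ((Finset.sum_le_sum fun k _ => h1 k).trans ?_)
    rw [Finset.sum_const, Finset.card_univ, Fintype.card_fin, nsmul_eq_mul, hε]
    push_cast
    apply le_of_eq
    field_simp
  rw [hsplit]
  have h5 : ‖z i‖ - ‖∑ k, cc k * ∑ l ∈ I, (v l (i + k) - (t : ℂ) * ζ l ^ ((i : ℕ) + (k : ℕ)))‖ ≤
      ‖z i + ∑ k, cc k * ∑ l ∈ I, (v l (i + k) - (t : ℂ) * ζ l ^ ((i : ℕ) + (k : ℕ)))‖ := by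
    have := norm_sub_le (z i + ∑ k, cc k * ∑ l ∈ I,
      (v l (i + k) - (t : ℂ) * ζ l ^ ((i : ℕ) + (k : ℕ))))
      (∑ k, cc k * ∑ l ∈ I, (v l (i + k) - (t : ℂ) * ζ l ^ ((i : ℕ) + (k : ℕ))))
    rw [add_sub_cancel_right] at this
    linarith
  refine le_trans ?_ h5
  rw [hi]
  have h6 : c * t / K ^ 2 = 2 * (c / (2 * K ^ 2) * t) := by field_simp
  linarith

end Pool.Agent.Helper2.SR
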