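import Pool.Agent.Helper5.SR.St1

/-!
# Project SR, module NUM: real arithmetic of the profile
-/

set_option autoImplicit false

namespace Pool.Agent.Helper2.SR

open Helper5.SR Pool.Agent.Helper51.LT

namespace NUM

/-- telescoping -/
lemma tele (T : ℕ → ℝ) (n b : ℕ) (hb : b ≤ n) :
    ∑ l ∈ Finset.range n, (if b ≤ l then T l - T (l + 1) else 0) = T b - T n := by
  induction n with
  | zero =>
    have : b = 0 := by omega
    subst this
    simp
  | succ n ih =>
    rw [Finset.sum_range_succ]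
    rcases Nat.lt_or_ge n b with h | h
    · have hbn : b = n + 1 := by omega
      subst hbn
      rw [if_neg (by omega)]
      have : ∑ l ∈ Finset.range n, (if n + 1 ≤ l then T l - T (l + 1) else 0) = 0 := by
        refine Finset.sum_eq_zero fun l hl => ?_
        rw [if_neg]
        have := Finset.mem_range.mp hl
        omega
      rw [this]
      ring
    · rw [ih h, if_pos h]
      ring

/-- truncation of a sum -/
lemma trunc (f : ℕ → ℝ) (N l : ℕ) (h : l ≤ N) :
    ∑ b ∈ Finset.range (N + 1), (if b ≤ l then f b else 0) = ∑ b ∈ Finset.range (l + 1), f b := by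
  rw [← Finset.sum_filter]
  congr 1
  ext b
  simp only [Finset.mem_filter, Finset.mem_range]
  omega

lemma trunc' (f : ℕ → ℝ) (N l : ℕ) (h : N ≤ l) :
    ∑ b ∈ Finset.range (N + 1), (if b ≤ l then f b else 0) = ∑ b ∈ Finset.range (N + 1), f b := by
  refine Finset.sum_congr rfl fun b hb => ?_
  rw [if_pos]
  have := Finset.mem_range.mp hb
  omega

/-- the case of one stage -/
lemma case_one (m : ℕ) (g : ℝ) :
    ∃ (r : ℕ) (α : ℕ → ℝ) (p : ℕ → Fin (m + 1) → ℝ) (act : ℕ → Finset (Fin (m + 1))),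
    Prof r α p act ∧ ∀ l, 0 < ss r α p act l ∧ ss r α p act l ≤ 1 ∧
      g + (2 / ((m + 1 : ℕ) : ℝ) - g) * qr g ^ (m + 1 - (m + 1)) ≤
        AA r α act l + g * (1 - ss r α p act l) := by
  have hm : (0 : ℝ) < ((m + 1 : ℕ) : ℝ) := by positivity
  refine ⟨1, fun _ => 2 / ((m + 1 : ℕ) : ℝ), fun _ _ => 2 / ((m + 1 : ℕ) : ℝ),
    fun _ => Finset.univ, ⟨fun _ => by positivity, fun _ _ _ => by positivity, ?_,
      fun _ => le_refl _⟩, ?_⟩
  · intro b _
    rw [Finset.sum_const, Finset.card_univ, Fintype.card_fin, nsmul_eq_mul]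
    field_simp
  · intro l
    have h1 : ss 1 (fun _ => 2 / ((m + 1 : ℕ) : ℝ)) (fun _ _ => 2 / ((m + 1 : ℕ) : ℝ))
        (fun _ => Finset.univ) l = 1 := by
      simp only [ss, Finset.range_one, Finset.sum_singleton, Finset.mem_univ, if_true]
      field_simp
    have h2 : AA 1 (fun _ => 2 / ((m + 1 : ℕ) : ℝ)) (fun _ => Finset.univ) l =
        2 / ((m + 1 : ℕ) : ℝ) := by
      simp only [AA, Finset.range_one, Finset.sum_singleton, Finset.mem_univ, if_true]
    rw [h1, h2, Nat.sub_self, pow_zero]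
    refine ⟨one_pos, le_refl _, ?_⟩
    linarith

/-- closed forms, abstractly -/
structure Dat (n : ℕ) (g jj : ℝ) where
  ρ : ℝ
  a : ℝ
  E : ℝ
  hg : 0 < g
  hg2 : g ≤ 1 / 2
  hj : 0 < jj
  hρ : ρ * (2 - g) = 2 + g
  h1 : 1 < ρ
  hn : 1 ≤ n
  hE : E * (ρ ^ n) ^ 2 = 2 / jj - g
  ha : a * (2 - g) = 4 * E
  hc : 2 ≤ (2 * jj + 1) * g
  hgj : g * jj < 2

namespace Dat

variable {n : ℕ} {g jj : ℝ} (D : Dat n g jj)

/-- heights -/
noncomputable def α (b : ℕ) : ℝ :=
  if b = 0 then D.a else if b < n then (D.ρ - 1) * D.a * D.ρ ^ (2 * b) / D.ρ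
    else if b = n then (2 - 4 * (2 - g * jj) / (2 + g)) / jj else 0

/-- sums of the weights -/
noncomputable def T (b : ℕ) : ℝ :=
  if b ≤ n then jj * D.ρ ^ n / D.ρ ^ b else jj - ((b : ℝ) - n)

/-- weights -/
noncomputable def γ (b : ℕ) : ℝ := D.T b - D.T (b + 1)

include D

lemma rpos : 0 < D.ρ := lt_trans one_pos D.h1

lemma Epos : 0 < D.E := by
  have h := D.hE
  have h2 : 0 < 2 / jj - g := by
    rw [sub_pos, lt_div_iff₀ D.hj]
    exact D.hgj
  have hr := D.rpos
  have : 0 < D.E * (D.ρ ^ n) ^ 2 := by rw [h]; exact h2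
  exact (mul_pos_iff_of_pos_right (by positivity)).mp this

lemma apos : 0 < D.a := by
  have h := D.ha
  have hE := D.Epos
  have : 0 < 2 - g := by linarith [D.hg2]
  have h2 : 0 < D.a * (2 - g) := by rw [h]; linarith
  exact (mul_pos_iff_of_pos_right this).mp h2

lemma T_pos {b : ℕ} (hb : b ≤ n) : 0 < D.T b := by
  rw [T, if_pos hb]
  have := D.rpos
  have := D.hj
  positivity

lemma T_n : D.T n = jj := by
  rw [T, if_pos (le_refl _)]
  have := D.rpos
  field_simp

lemma γ_lt {l : ℕ} (hl : l < n) : D.γ l * D.ρ = D.T l * (D.ρ - 1) := by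
  rw [γ, T, T, if_pos hl.le, if_pos (by omega)]
  have := D.rpos
  field_simp
  ring

lemma γ_ge {l : ℕ} (hl : n ≤ l) : D.γ l = 1 := by
  rcases hl.eq_or_lt with h | h
  · subst h
    rw [γ, D.T_n, T, if_neg (by omega)]
    push_cast
    ring
  · rw [γ, T, T, if_neg (by omega), if_neg (by omega)]
    push_cast
    ring

lemma γ_pos (l : ℕ) : 0 < D.γ l := by
  rcases Nat.lt_or_ge l n with h | h
  · have h1 := D.γ_lt h
    have h2 := D.T_pos h.le
    have h3 : 0 < D.ρ - 1 := by linarith [D.h1]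
    have h4 : 0 < D.γ l * D.ρ := by rw [h1]; positivity
    exact (mul_pos_iff_of_pos_right D.rpos).mp h4
  · rw [D.γ_ge h]
    exact one_pos

lemma S_le : 4 * (2 - g * jj) / (2 + g) ≤ 2 := by
  rw [div_le_iff₀ (by linarith [D.hg])]
  linarith [D.hc]

lemma α_nonneg (b : ℕ) : 0 ≤ D.α b := by
  have h1 := D.apos
  have h2 := D.rpos
  have h3 : 0 < D.ρ - 1 := by linarith [D.h1]
  have h4 := D.S_le
  have h5 := D.hj
  rw [α]
  split_ifs
  · exact h1.le
  · positivity
  · exact div_nonneg (by linarith) h5.le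
  · exact le_refl _

/-- sum of `α T` -/
lemma sum_αT {l : ℕ} (hl : l < n) :
    ∑ b ∈ Finset.range (l + 1), D.α b * D.T b = D.a * (jj * D.ρ ^ n) * D.ρ ^ l := by
  have h2 := D.rpos
  induction l with
  | zero =>
    rw [zero_add, Finset.sum_range_one, α, if_pos rfl, T, if_pos (Nat.zero_le _)]
    simp
  | succ l ih =>
    rw [Finset.sum_range_succ, ih (by omega), α, if_neg (by omega), if_pos hl, T, if_pos hl.le]
    field_simp
    ring

/-- sum of `α` -/
lemma sum_α {l : ℕ} (hl : l < n) :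
    ∑ b ∈ Finset.range (l + 1), D.α b = D.E + D.a * (D.ρ ^ l) ^ 2 * (2 + g) / 4 := by
  have h2 := D.rpos
  have hr := D.hρ
  induction l with
  | zero =>
    rw [zero_add, Finset.sum_range_one, α, if_pos rfl, pow_zero]
    linear_combination (1 / 4) * D.ha
  | succ l ih =>
    rw [Finset.sum_range_succ, ih (by omega), α, if_neg (by omega), if_pos hl]
    have e : D.ρ ^ (2 * (l + 1)) / D.ρ = (D.ρ ^ l) ^ 2 * D.ρ := by
      field_simp
      ring
    have e2 : (D.ρ - 1) * D.a * D.ρ ^ (2 * (l + 1)) / D.ρ =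
        (D.ρ - 1) * D.a * ((D.ρ ^ l) ^ 2 * D.ρ) := by
      rw [mul_div_assoc, e]
    rw [e2, pow_succ D.ρ l]
    have : (2 + g) * (D.ρ + 1) = 4 * D.ρ := by linear_combination (-1) * hr
    linear_combination (-(D.a * (D.ρ ^ l) ^ 2 * (D.ρ - 1) / 4)) * this

/-- the value at the last increasing index -/
lemma last : D.a * (D.ρ ^ (n - 1)) ^ 2 * (2 + g) / 4 * D.ρ = 2 / jj - g := by
  obtain ⟨k, hk⟩ : ∃ k, n = k + 1 := ⟨n - 1, by have := D.hn; omega⟩
  have hE := D.hE
  have hk' : n - 1 = k := by omega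
  rw [hk']
  have hpow : D.ρ ^ n = D.ρ ^ k * D.ρ :=
    (congrArg (fun i => D.ρ ^ i) hk).trans (pow_succ _ _)
  rw [← hE, hpow]
  have h2g : (2 - g) ≠ 0 := by
    have := D.hg2
    linarith
  have h3 : D.a * (2 + g) = 4 * D.E * D.ρ := by
    have h1 := D.hρ
    have h2 := D.ha
    rw [← h1, ← h2]
    ring
  linear_combination ((D.ρ ^ k) ^ 2 * D.ρ / 4) * h3

lemma S_eq : D.a * (jj * D.ρ ^ n) * D.ρ ^ (n - 1) = 4 * (2 - g * jj) / (2 + g) := by
  have hl := D.last
  obtain ⟨k, hk⟩ : ∃ k, n = k + 1 := ⟨n - 1, by have := D.hn; omega⟩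
  have hk' : n - 1 = k := by omega
  rw [hk'] at hl ⊢
  have hpow : D.ρ ^ n = D.ρ ^ k * D.ρ :=
    (congrArg (fun i => D.ρ ^ i) hk).trans (pow_succ _ _)
  rw [hpow]
  have h2 : (2 + g) ≠ 0 := by
    have := D.hg
    linarith
  have hj := D.hj
  rw [eq_div_iff h2]
  have h5 : (2 / jj - g) * jj = 2 - g * jj := by field_simp
  rw [← h5, ← hl]
  ring

end Dat

end NUM

open NUM in
theorem hNum : StNum := by
  intro m j g _ hj1 hjm hg0 hg2 hgj hcase
  by_cases hjm1 : j = m + 1
  · subst hjm1
    exact case_one m g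
  have hc : 2 ≤ (2 * (j : ℝ) + 1) * g := by
    rcases hcase with h | h
    · exact absurd h hjm1
    · exact h
  have hj0 : (0 : ℝ) < j := by exact_mod_cast hj1
  have hg : 0 < g := by
    by_contra hcon
    have : g = 0 := le_antisymm (not_lt.mp hcon) hg0
    rw [this] at hc
    linarith
  set n := m + 1 - j with hn
  have hn1 : 1 ≤ n := by omega
  have h2g : (0 : ℝ) < 2 - g := by linarith
  have hgj2 : g * j < 2 := by
    nlinarith
  set ρ := (2 + g) / (2 - g) with hρd
  have hρ : ρ * (2 - g) = 2 + g := by rw [hρd]; field_simp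
  have hρ1 : 1 < ρ := by rw [hρd, lt_div_iff₀ h2g]; linarith
  have hq : qr g * ρ ^ 2 = 1 := by
    rw [qr, hρd]
    field_simp
  set E := (2 / (j : ℝ) - g) * qr g ^ n with hEd
  have hE : E * (ρ ^ n) ^ 2 = 2 / (j : ℝ) - g := by
    rw [hEd, ← pow_mul, mul_comm n 2, pow_mul, mul_assoc, ← mul_pow, hq, one_pow, mul_one]
  set D : Dat n g (j : ℝ) :=
    { ρ := ρ
      a := 4 * E / (2 - g)
      E := E
      hg := hg
      hg2 := hg2
      hj := hj0
      hρ := hρ
      h1 := hρ1
      hn := hn1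
      hE := hE
      ha := by field_simp
      hc := hc
      hgj := hgj2 } with hD
  have hTm : D.T (m + 1) = 0 := by
    rw [Dat.T, if_neg (by omega)]
    have : (n : ℝ) = (m + 1 : ℝ) - j := by
      rw [hn, Nat.cast_sub hjm]
      push_cast
      ring
    rw [this]
    push_cast
    ring
  set act : ℕ → Finset (Fin (m + 1)) := fun b =>
    if b ≤ n then Finset.univ.filter (fun l : Fin (m + 1) => b ≤ (l : ℕ)) else ∅ with hact
  have hmem : ∀ b, b < n + 1 → ∀ l : Fin (m + 1), l ∈ act b ↔ b ≤ (l : ℕ) := by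
    intro b hb l
    simp only [hact]
    rw [if_pos (by omega)]
    simp
  set p : ℕ → Fin (m + 1) → ℝ := fun b l => 2 * D.γ l / D.T b with hp
  refine ⟨n + 1, D.α, p, act, ⟨D.α_nonneg, ?_, ?_, ?_⟩, ?_⟩
  · intro b l hl
    have hb : b ≤ n := by
      by_contra hcon
      simp only [hact] at hl
      rw [if_neg hcon] at hl
      simp at hl
    exact div_pos (mul_pos two_pos (D.γ_pos _)) (D.T_pos hb)
  · intro b hb
    have hTb := D.T_pos (by omega : b ≤ n)
    have e1 : act b = Finset.univ.filter (fun l : Fin (m + 1) => b ≤ (l : ℕ)) := by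
      simp only [hact]
      rw [if_pos (by omega)]
    have e2 : ∑ l ∈ act b, D.γ (l : ℕ) = D.T b := by
      rw [e1, Finset.sum_filter]
      have e3 := Fin.sum_univ_eq_sum_range
        (fun l : ℕ => if b ≤ l then D.T l - D.T (l + 1) else 0) (m + 1)
      have e4 := tele D.T (m + 1) b (by omega)
      rw [hTm, sub_zero] at e4
      rw [← e4, ← e3]
      rfl
    simp only [hp]
    rw [← Finset.sum_div, ← Finset.mul_sum, e2]
    field_simp
  · intro b
    simp only [hact]
    split_ifs with h1 h2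
    · intro l hl
      simp only [Finset.mem_filter, Finset.mem_univ, true_and] at hl ⊢
      omega
    · omega
    · exact Finset.empty_subset _
    · exact Finset.empty_subset _
  · intro l
    have hr := D.rpos
    have hssf : ss (n + 1) D.α p act l =
        (∑ b ∈ Finset.range (n + 1), (if b ≤ (l : ℕ) then D.α b * D.T b else 0)) /
          (2 * D.γ l) := by
      rw [ss, Finset.sum_div]
      refine Finset.sum_congr rfl fun b hb => ?_
      have hb' := Finset.mem_range.mp hb
      by_cases h : b ≤ (l : ℕ)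
      · rw [if_pos ((hmem b hb' l).mpr h), if_pos h]
        simp only [hp]
        rw [div_div_eq_mul_div]
      · rw [if_neg (fun h' => h ((hmem b hb' l).mp h')), if_neg h, zero_div]
    have hAAf : AA (n + 1) D.α act l =
        ∑ b ∈ Finset.range (n + 1), (if b ≤ (l : ℕ) then D.α b else 0) := by
      rw [AA]
      refine Finset.sum_congr rfl fun b hb => ?_
      have hb' := Finset.mem_range.mp hb
      by_cases h : b ≤ (l : ℕ)
      · rw [if_pos ((hmem b hb' l).mpr h), if_pos h]
      · rw [if_neg (fun h' => h ((hmem b hb' l).mp h')), if_neg h]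
    have hlast := D.last
    rcases Nat.lt_or_ge (l : ℕ) n with hl | hl
    · rw [trunc _ n l hl.le, D.sum_αT hl] at hssf
      rw [trunc _ n l hl.le, D.sum_α hl] at hAAf
      have hγ := D.γ_pos l
      set s := ss (n + 1) D.α p act l with hs
      have hs1 : s * (2 * D.γ l) = D.a * (j * D.ρ ^ n) * D.ρ ^ (l : ℕ) := by
        rw [hssf]
        field_simp
      have hTl : D.T l * D.ρ ^ (l : ℕ) = j * D.ρ ^ n := by
        rw [Dat.T, if_pos hl.le]
        field_simp
      have hγl := D.γ_lt hl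
      -- s * 2 (ρ-1) = a (ρ^l)^2 ρ
      have hs2 : s * (2 * (D.ρ - 1)) = D.a * (D.ρ ^ (l : ℕ)) ^ 2 * D.ρ := by
        have hT0 := D.T_pos hl.le
        have : D.T l * (s * (2 * (D.ρ - 1))) = D.T l * (D.a * (D.ρ ^ (l : ℕ)) ^ 2 * D.ρ) := by
          calc D.T l * (s * (2 * (D.ρ - 1))) = 2 * s * (D.T l * (D.ρ - 1)) := by ring
            _ = s * (2 * D.γ l) * D.ρ := by rw [← hγl]; ring
            _ = D.a * (D.T l * D.ρ ^ (l : ℕ)) * D.ρ ^ (l : ℕ) * D.ρ := by rw [hs1, hTl]
            _ = D.T l * (D.a * (D.ρ ^ (l : ℕ)) ^ 2 * D.ρ) := by ring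
        exact mul_left_cancel₀ hT0.ne' this
      have h1 := D.h1
      have hgs : g * s = D.a * (D.ρ ^ (l : ℕ)) ^ 2 * (2 + g) / 4 := by
        have e5 : (D.ρ - 1) * (g * s) =
            (D.ρ - 1) * (D.a * (D.ρ ^ (l : ℕ)) ^ 2 * (2 + g) / 4) := by
          have e6 : 2 * g * D.ρ = (D.ρ - 1) * (2 + g) := by
            linear_combination (-1) * D.hρ
          linear_combination (g / 2) * hs2 + (D.a * (D.ρ ^ (l : ℕ)) ^ 2 / 4) * e6
        exact mul_left_cancel₀ (by linarith : D.ρ - 1 ≠ 0) e5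
      have ha := D.apos
      refine ⟨?_, ?_, ?_⟩
      · have : 0 < g * s := by rw [hgs]; positivity
        exact (mul_pos_iff_of_pos_left hg).mp this
      · have hmono : D.ρ ^ (l : ℕ) ≤ D.ρ ^ (n - 1) := pow_le_pow_right₀ h1.le (by omega)
        have hle : g * s ≤ D.a * (D.ρ ^ (n - 1)) ^ 2 * (2 + g) / 4 := by
          rw [hgs]
          gcongr
        have h6 : D.a * (D.ρ ^ (n - 1)) ^ 2 * (2 + g) / 4 ≤ g := by
          have h7 : D.a * (D.ρ ^ (n - 1)) ^ 2 * (2 + g) / 4 * D.ρ ≤ g * D.ρ := by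
            rw [hlast]
            have h8 : 2 / (j : ℝ) ≤ g * (1 + D.ρ) := by
              rw [div_le_iff₀ hj0]
              have h9 : (1 + D.ρ) * (2 - g) = 4 := by linear_combination D.hρ
              have h10 : 2 * (2 - g) ≤ g * (1 + D.ρ) * j * (2 - g) := by
                have : g * (1 + D.ρ) * j * (2 - g) = 4 * g * j := by
                  linear_combination (g * j) * h9
                rw [this]
                linarith
              exact le_of_mul_le_mul_right h10 h2g
            linarith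
          exact le_of_mul_le_mul_right h7 hr
        have : g * s ≤ g * 1 := by linarith
        exact le_of_mul_le_mul_left this hg
      · rw [hAAf]
        have : D.E = E := rfl
        rw [← this]
        linarith
    · obtain ⟨k, hk⟩ : ∃ k, n = k + 1 := ⟨n - 1, by omega⟩
      have hk' : n - 1 = k := by omega
      have hkn : k < n := by omega
      have hαn : D.α n = (2 - 4 * (2 - g * j) / (2 + g)) / j := by
        rw [Dat.α, if_neg (by omega), if_neg (lt_irrefl _), if_pos rfl]
      have hsum1 : ∑ b ∈ Finset.range (n + 1), D.α b * D.T b = 2 := by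
        rw [Finset.sum_range_succ]
        have := D.sum_αT hkn
        rw [← hk] at this
        rw [this, D.T_n, hαn]
        have hS := D.S_eq
        rw [hk'] at hS
        rw [hS]
        field_simp
        ring
      rw [trunc' _ n l hl, hsum1, D.γ_ge hl] at hssf
      have hsum2 : ∑ b ∈ Finset.range (n + 1), D.α b = D.E + g := by
        rw [Finset.sum_range_succ]
        have := D.sum_α hkn
        rw [← hk] at this
        rw [this, hαn]
        rw [hk'] at hlast
        have h11 : D.a * (D.ρ ^ k) ^ 2 * (2 + g) / 4 = (2 / (j : ℝ) - g) * (2 - g) / (2 + g) := by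
          rw [eq_div_iff (by linarith), ← hlast]
          linear_combination (-(D.a * (D.ρ ^ k) ^ 2 * (2 + g) / 4)) * D.hρ
        rw [h11]
        field_simp
        ring
      rw [trunc' _ n l hl, hsum2] at hAAf
      rw [hssf, hAAf]
      have : D.E = E := rfl
      rw [← this]
      refine ⟨by norm_num, by norm_num, ?_⟩
      norm_num
      linarith

end Pool.Agent.Helper2.SR
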